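import Pool.Agent.H37.DEN.Targets

/-!
# A polynomial divisible by many generic `Q - c_j` (row of the board den)
-/

set_option autoImplicit false

open MvPolynomial Filter
open Pool.Agent.H18.HIT Pool.Agent.H8.TD Pool.Agent.H37.DEN

namespace Pool.Agent.H68.DEN

section general

variable {k R : Type} [Field k] [CommRing R] [Algebra k R]

theorem eval_mem (W : Submodule k R) {N : ℕ} (s : MvPolynomial (Fin N) R)
    (hs : ∀ γ, coeff γ s ∈ W) (c : Fin N → k) :
    eval (fun j => algebraMap k R (c j)) s ∈ W := by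
  rw [eval_eq']
  refine Submodule.sum_mem _ fun γ _ => ?_
  have h1 : coeff γ s * ∏ i, algebraMap k R (c i) ^ γ i = (∏ i, c i ^ γ i) • coeff γ s := by
    rw [Algebra.smul_def, map_prod, mul_comm]
    congr 1
    refine Finset.prod_congr rfl fun i _ => ?_
    rw [map_pow]
  rw [h1]
  exact Submodule.smul_mem _ _ (hs γ)

theorem exists_grid [IsDomain R] [Infinite k] {N : ℕ} (s' : MvPolynomial (Fin N) R)
    (hs' : s' ≠ 0) (E : Finset k) : ∃ c : Fin N → k, (∀ j, c j ∉ E) ∧
      eval (fun j => algebraMap k R (c j)) s' ≠ 0 := by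
  by_contra hcon
  push Not at hcon
  apply hs'
  have hinj : Function.Injective (algebraMap k R) := (algebraMap k R).injective
  apply MvPolynomial.funext_set (fun _ : Fin N => algebraMap k R '' {x | x ∉ E})
  · intro _
    apply Set.Infinite.image hinj.injOn
    exact E.finite_toSet.infinite_compl
  · intro x hx
    rw [Set.mem_univ_pi] at hx
    choose c hc hcx using hx
    have h1 : x = fun j => algebraMap k R (c j) := by
      funext j
      exact (hcx j).symm
    rw [h1, map_zero]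
    exact hcon c hc

end general

theorem degree_pos {k : Type} [Field k] {Q : Po 3 k} (hQ : Transcendental k Q) :
    1 ≤ Q.totalDegree := by
  by_contra hcon
  apply hQ
  have h1 : Q.totalDegree = 0 := by omega
  rw [totalDegree_eq_zero_iff_eq_C] at h1
  rw [h1]
  exact isAlgebraic_algebraMap _

theorem Wl_le_Sp {k : Type} [Field k] (κ : IntermediateField k (K3 k)) (P : Po 3 k) (i a : ℕ) :
    Wl κ (ι P) i a ≤ Sp κ (a + i * P.totalDegree) := by
  unfold Wl
  rw [Submodule.span_le]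
  rintro _ ⟨q, j, hq, hj, rfl⟩
  refine Submodule.subset_span ⟨q * P ^ j, ?_, ?_⟩
  · refine (totalDegree_mul _ _).trans (Nat.add_le_add hq ?_)
    exact (totalDegree_pow _ _).trans (Nat.mul_le_mul_right _ hj.le)
  · unfold ι
    rw [map_mul, map_pow]

theorem span_WP_le {k : Type} [Field k] (κ : IntermediateField k (K3 k)) (P : Po 3 k)
    (J a : ℕ) : Submodule.span κ (algebraMap (Po 3 k) (K3 k) '' (WP P J a)) ≤
      Wl κ (ι P) (J + 1) a := by
  rw [Submodule.span_le]
  rintro _ ⟨w, hw, rfl⟩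
  unfold WP at hw
  rw [SetLike.mem_coe]
  rw [SetLike.mem_coe] at hw
  induction hw using Submodule.span_induction with
  | mem x hx =>
    obtain ⟨q, i, hq, hi, rfl⟩ := hx
    refine Submodule.subset_span ⟨q, i, hq, by omega, ?_⟩
    unfold ι
    rw [map_mul, map_pow]
  | zero => rw [map_zero]; exact Submodule.zero_mem _
  | add x y _ _ hx hy => rw [map_add]; exact Submodule.add_mem _ hx hy
  | smul c x _ hx =>
    have h1 : algebraMap (Po 3 k) (K3 k) (c • x) =
        (algebraMap k κ c) • algebraMap (Po 3 k) (K3 k) x := by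
      rw [Algebra.smul_def, map_mul, ← IsScalarTower.algebraMap_apply k (Po 3 k) (K3 k),
        Algebra.smul_def, ← IsScalarTower.algebraMap_apply k κ (K3 k)]
    rw [h1]
    exact Submodule.smul_mem _ _ hx

theorem pf_AUX (hFDM : T_FDM) (hINC : Pool.Agent.H37.DEN.T_INC) (hDIM : T_DIM) (hRBD : T_RBD) (hHSF : T_HSF)
    (hNMJ : T_NMJ) (hLWP : T_LWP) (hAXF : T_AXF) : T_AUX := by
  intro k _ _ P Q D α hAI hD hqp h6
  have hinj : Function.Injective (algebraMap (Po 3 k) (K3 k)) :=
    IsFractionRing.injective (Po 3 k) (K3 k)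
  have hQt : Transcendental k Q := hAI.transcendental 1
  have hq1 : 1 ≤ Q.totalDegree := degree_pos hQt
  have hAI1 : AlgebraicIndependent k ![ι P, ι Q] := by
    have h1 := hAI.map' (f := IsScalarTower.toAlgHom k (Po 3 k) (K3 k)) hinj
    have h2 : (IsScalarTower.toAlgHom k (Po 3 k) (K3 k)) ∘ ![P, Q] = ![ι P, ι Q] := by
      funext i
      fin_cases i
      · rfl
      · rfl
    rwa [h2] at h1
  have hAI2 : AlgebraicIndependent k ![ι Q, ι P] := by
    have h1 := hAI1.comp ![1, 0] (by decide)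
    have h2 : ![ι P, ι Q] ∘ ![1, 0] = ![ι Q, ι P] := by
      funext i
      fin_cases i
      · rfl
      · rfl
    rwa [h2] at h1
  set κ := IntermediateField.adjoin k {ι Q} with hκ
  have hr : ∀ a, Module.finrank (IntermediateField.adjoin k {ι Q, ι P})
      (Sp (IntermediateField.adjoin k {ι Q, ι P}) a) ≤ (a + 1) * D := by
    apply hRBD k (ι Q) (ι P) D hAI2
    intro s
    rw [Set.pair_comm (ι Q) (ι P)]
    exact hD s
  obtain ⟨i₀, hi₀⟩ := hINC k κ (ι P)
  have hdim := hDIM k (ι Q) (ι P) i₀ hAI2 hi₀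
  set p := P.totalDegree with hp
  set q := Q.totalDegree with hq
  obtain ⟨J₀, hJ₀⟩ := hNMJ p q D α (i₀ * p) hq1 hqp h6
  obtain ⟨J, hJ1, hJ2, hJ3⟩ : ∃ J, J₀ ≤ J ∧ i₀ ≤ J ∧ p + q + 1 ≤ J :=
    ⟨J₀ + i₀ + (p + q + 1), by omega, by omega, by omega⟩
  have hα : 1 ≤ α := by
    rcases Nat.eq_zero_or_pos α with h | h
    · rw [h] at h6
      omega
    · exact h
  have haJ : J ≤ α * J := Nat.le_mul_of_pos_left J hα
  set a := α * J with ha
  have hnum := hJ₀ J hJ1
  rw [← ha] at hnum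
  obtain ⟨hWf, hWl⟩ := hLWP k P J a (hq1.trans hqp) (by omega)
  have hSf := (hFDM k κ (ι P) 0 (a + i₀ * p)).1
  have hh := hHSF k Q (a + i₀ * p) hq1 (by omega)
  rw [← hκ, ← hq] at hh
  have h1 : Module.finrank κ (Wl κ (ι P) i₀ a) ≤ Module.finrank κ (Sp κ (a + i₀ * p)) :=
    Submodule.finrank_mono (Wl_le_Sp κ P i₀ a)
  have h2 := hdim a (J + 1 - i₀)
  rw [← hκ, Nat.add_sub_cancel' (by omega : i₀ ≤ J + 1)] at h2
  have h3 : (J + 1 - i₀) * Module.finrank (IntermediateField.adjoin k {ι Q, ι P})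
      (Sp (IntermediateField.adjoin k {ι Q, ι P}) a) ≤ (J + 1) * ((a + 1) * D) :=
    Nat.mul_le_mul (Nat.sub_le _ _) (hr a)
  have hfin := (hFDM k κ (ι P) (J + 1) a).2
  have h4 : Module.finrank κ (Submodule.span κ (algebraMap (Po 3 k) (K3 k) '' (WP P J a))) ≤
      Module.finrank κ (Wl κ (ι P) (J + 1) a) :=
    Submodule.finrank_mono (span_WP_le κ P J a)
  set ρ := (a + i₀ * p + 3).choose 3 - (a + i₀ * p - q + 3).choose 3 +
    (J + 1) * ((a + 1) * D) with hρ
  have h5 : Module.finrank κ (Submodule.span κ (algebraMap (Po 3 k) (K3 k) '' (WP P J a))) ≤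
      ρ := by
    omega
  obtain ⟨s, s', hs'0, hss', hsW⟩ := hAXF k (Po 3 k) (K3 k) (WP P J a) Q J ρ hinj hQt hWf h5
    (lt_of_lt_of_le hnum hWl)
  refine ⟨J, by omega, fun E₀ => ?_⟩
  have : Infinite k := CharZero.infinite k
  obtain ⟨c, hcE, hc0⟩ := exists_grid (k := k) s' hs'0 E₀
  refine ⟨c, eval (fun j => algebraMap k (Po 3 k) (c j)) s,
    (-1) ^ J * eval (fun j => algebraMap k (Po 3 k) (c j)) s', hcE, eval_mem _ s hsW c,
    mul_ne_zero (pow_ne_zero _ (neg_ne_zero.2 one_ne_zero)) hc0, ?_⟩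
  have h7 : ∏ j : Fin J, (Q - C (c j)) = (-1) ^ J * ∏ j : Fin J, (C (c j) - Q) := by
    have h8 : ∀ j : Fin J, Q - C (c j) = (-1) * (C (c j) - Q) := fun j => by ring
    rw [Finset.prod_congr rfl fun j _ => h8 j, Finset.prod_mul_distrib, Finset.prod_const,
      Finset.card_univ, Fintype.card_fin]
  have h9 : eval (fun j => algebraMap k (Po 3 k) (c j)) s =
      (∏ j : Fin J, (C (c j) - Q)) * eval (fun j => algebraMap k (Po 3 k) (c j)) s' := by
    rw [hss', map_mul, map_prod]
    congr 1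
    refine Finset.prod_congr rfl fun j _ => ?_
    rw [map_sub, eval_X, eval_C]
    rfl
  rw [h9, h7]
  have h10 : ((-1 : Po 3 k) ^ J) * (-1) ^ J = 1 := by
    rw [← mul_pow]
    simp
  calc (∏ j : Fin J, (C (c j) - Q)) * eval (fun j => algebraMap k (Po 3 k) (c j)) s' =
      ((-1 : Po 3 k) ^ J * (-1) ^ J) * ((∏ j : Fin J, (C (c j) - Q)) *
        eval (fun j => algebraMap k (Po 3 k) (c j)) s') := by rw [h10, one_mul]
    _ = _ := by ring

end Pool.Agent.H68.DEN
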