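import Pool.Agent.H37.DEN.Targets

/-!
# Stable increments are bounded by the dimension over the larger field (row DIM of the board den)
-/

set_option autoImplicit false

open MvPolynomial Filter
open Pool.Agent.H18.HIT Pool.Agent.H8.TD Pool.Agent.H37.DEN

namespace Pool.Agent.H68.DEN

section general

variable {k K : Type} [Field k] [Field K] [Algebra k K]

/-- the span of the products with the powers below `i` -/
noncomputable def Wg (κ : IntermediateField k K) (P : K) (X : Set K) (i : ℕ) : Submodule κ K :=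
  Submodule.span κ {h | ∃ x ∈ X, ∃ j < i, h = x * P ^ j}

theorem mem_Wg (κ : IntermediateField k K) (P : K) (X : Set K) {b : K}
    (hb : b ∈ Submodule.span κ X) {j i : ℕ} (hj : j < i) : b * P ^ j ∈ Wg κ P X i := by
  induction hb using Submodule.span_induction with
  | mem x hx => exact Submodule.subset_span ⟨x, hx, j, hj, rfl⟩
  | zero => rw [zero_mul]; exact Submodule.zero_mem _
  | add x y _ _ hx hy => rw [add_mul]; exact Submodule.add_mem _ hx hy
  | smul c x _ hx => rw [smul_mul_assoc]; exact Submodule.smul_mem _ c hx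

theorem mul_Wg (κ : IntermediateField k K) (P : K) (X : Set K) {i : ℕ} {w : K}
    (hw : w ∈ Wg κ P X i) {m l : ℕ} (h : l = i + m) : w * P ^ m ∈ Wg κ P X l := by
  subst h
  unfold Wg at hw
  induction hw using Submodule.span_induction with
  | mem x hx =>
    obtain ⟨x, hx, j, hj, rfl⟩ := hx
    exact Submodule.subset_span ⟨x, hx, j + m, by omega, by rw [mul_assoc, ← pow_add]⟩
  | zero => rw [zero_mul]; exact Submodule.zero_mem _
  | add x y _ _ hx hy => rw [add_mul]; exact Submodule.add_mem _ hx hy
  | smul c x _ hx => rw [smul_mul_assoc]; exact Submodule.smul_mem _ c hx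

theorem span_mono_field {κ lam : IntermediateField k K} (hle : κ ≤ lam) (X : Set K) {b : K}
    (hb : b ∈ Submodule.span κ X) : b ∈ Submodule.span lam X := by
  induction hb using Submodule.span_induction with
  | mem x hx => exact Submodule.subset_span hx
  | zero => exact Submodule.zero_mem _
  | add x y _ _ hx hy => exact Submodule.add_mem _ hx hy
  | smul c x _ hx =>
    have h1 : c • x = (⟨c.1, hle c.2⟩ : lam) • x := rfl
    rw [h1]
    exact Submodule.smul_mem _ _ hx

/-- the leading coefficient of a relation -/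
theorem relation {κ : IntermediateField k K} {P : K} {X : Set K} {d i₀ i : ℕ} (hi : i₀ ≤ i)
    (hi₀ : ∀ i ≥ i₀, ∀ b ∈ Submodule.span κ X, b * P ^ i ∈ Wg κ P X i →
      b * P ^ i₀ ∈ Wg κ P X i₀) (b : Fin d → K) (hb : ∀ l, b l ∈ Submodule.span κ X)
    (A : Fin d → Polynomial κ) (hA : ∃ l, A l ≠ 0)
    (hrel : ∑ l, Polynomial.aeval P (A l) * b l = 0) :
    ∃ a : Fin d → κ, (∃ l, a l ≠ 0) ∧ (∑ l, a l • b l) * P ^ i ∈ Wg κ P X i := by
  classical
  obtain ⟨l₁, hl₁⟩ := hA
  obtain ⟨l₀, hl₀, hmax⟩ := Finset.exists_max_image (Finset.univ.filter fun l => A l ≠ 0)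
    (fun l => (A l).natDegree) ⟨l₁, Finset.mem_filter.2 ⟨Finset.mem_univ _, hl₁⟩⟩
  have hl₀' := (Finset.mem_filter.1 hl₀).2
  set n := (A l₀).natDegree with hn
  have hdeg : ∀ l, (A l).natDegree ≤ n := by
    intro l
    by_cases h0 : A l = 0
    · rw [h0, Polynomial.natDegree_zero]
      exact Nat.zero_le _
    · exact hmax l (Finset.mem_filter.2 ⟨Finset.mem_univ _, h0⟩)
  refine ⟨fun l => (A l).coeff n, ⟨l₀, ?_⟩, ?_⟩
  · change (A l₀).coeff n ≠ 0
    rw [hn]
    exact Polynomial.leadingCoeff_ne_zero.2 hl₀'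
  have hβ : ∀ j, (∑ l, (A l).coeff j • b l) ∈ Submodule.span κ X := fun j =>
    Submodule.sum_mem _ fun l _ => Submodule.smul_mem _ _ (hb l)
  have h1 : ∑ j ∈ Finset.range (n + 1), (∑ l, (A l).coeff j • b l) * P ^ j = 0 := by
    rw [← hrel]
    have h2 : ∀ l, Polynomial.aeval P (A l) * b l =
        ∑ j ∈ Finset.range (n + 1), ((A l).coeff j • b l) * P ^ j := by
      intro l
      rw [Polynomial.aeval_eq_sum_range' (Nat.lt_succ_of_le (hdeg l)), Finset.sum_mul]
      refine Finset.sum_congr rfl fun j _ => ?_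
      rw [smul_mul_assoc, smul_mul_assoc, mul_comm]
    rw [Finset.sum_congr rfl fun l _ => h2 l, Finset.sum_comm]
    refine Finset.sum_congr rfl fun j _ => ?_
    rw [Finset.sum_mul]
  rw [Finset.sum_range_succ] at h1
  have h2 : (∑ l, (A l).coeff n • b l) * P ^ n ∈ Wg κ P X n := by
    rw [eq_neg_of_add_eq_zero_right h1]
    refine Submodule.neg_mem _ (Submodule.sum_mem _ fun j hj => ?_)
    exact mem_Wg κ P X (hβ j) (Finset.mem_range.1 hj)
  rcases le_total n i with h | h
  · have h3 := mul_Wg κ P X h2 (m := i - n) (l := i) (by omega)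
    rw [mul_assoc, ← pow_add, Nat.add_sub_cancel' h] at h3
    exact h3
  · have h3 := hi₀ n (hi.trans h) _ (hβ n) h2
    have h4 := mul_Wg κ P X h3 (m := i - i₀) (l := i) (by omega)
    rw [mul_assoc, ← pow_add, Nat.add_sub_cancel' hi] at h4
    exact h4

/-- common denominators -/
theorem common_denom {κ lam : IntermediateField k K} {P : K}
    (hlam : ∀ c ∈ lam, ∃ r s : Polynomial κ, c = Polynomial.aeval P r / Polynomial.aeval P s)
    {d : ℕ} (b : Fin d → K) (c : Fin d → lam) (hc : ∃ l, c l ≠ 0) (hrel : ∑ l, c l • b l = 0) :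
    ∃ A : Fin d → Polynomial κ, (∃ l, A l ≠ 0) ∧ ∑ l, Polynomial.aeval P (A l) * b l = 0 := by
  classical
  have h1 : ∀ l, ∃ r s : Polynomial κ, Polynomial.aeval P s ≠ 0 ∧
      ((c l : lam) : K) = Polynomial.aeval P r / Polynomial.aeval P s := by
    intro l
    obtain ⟨r, s, h⟩ := hlam (c l) (c l).2
    by_cases hs : Polynomial.aeval P s = 0
    · refine ⟨0, 1, ?_, ?_⟩
      · rw [map_one]
        exact one_ne_zero
      · rw [h, hs, div_zero, map_zero, zero_div]
    · exact ⟨r, s, hs, h⟩
  choose r s hs hcs using h1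
  have hD : ∏ j, Polynomial.aeval P (s j) ≠ 0 := Finset.prod_ne_zero_iff.2 fun j _ => hs j
  have h2 : ∀ l, Polynomial.aeval P (r l * ∏ j ∈ Finset.univ.erase l, s j) =
      (∏ j, Polynomial.aeval P (s j)) * ((c l : lam) : K) := by
    intro l
    rw [hcs l, map_mul, map_prod, ← Finset.mul_prod_erase Finset.univ _ (Finset.mem_univ l)]
    field_simp [hs l]
  refine ⟨fun l => r l * ∏ j ∈ Finset.univ.erase l, s j, ?_, ?_⟩
  · obtain ⟨l, hl⟩ := hc
    refine ⟨l, fun h0 => ?_⟩
    have h3 := h2 l
    have h4 : r l * ∏ j ∈ Finset.univ.erase l, s j = 0 := h0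
    rw [h4, map_zero] at h3
    rcases mul_eq_zero.1 h3.symm with h5 | h5
    · exact hD h5
    · exact hl (Subtype.ext h5)
  · have h3 : ∀ l, Polynomial.aeval P (r l * ∏ j ∈ Finset.univ.erase l, s j) * b l =
        (∏ j, Polynomial.aeval P (s j)) * (c l • b l) := by
      intro l
      rw [h2 l, mul_assoc]
      rfl
    change ∑ l, Polynomial.aeval P (r l * ∏ j ∈ Finset.univ.erase l, s j) * b l = 0
    rw [Finset.sum_congr rfl fun l _ => h3 l, ← Finset.mul_sum, hrel, mul_zero]

theorem dim_step {κ lam : IntermediateField k K} (hle : κ ≤ lam) (P : K) (X : Set K)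
    (hlam : ∀ c ∈ lam, ∃ r s : Polynomial κ, c = Polynomial.aeval P r / Polynomial.aeval P s)
    (hS : Module.Finite κ (Submodule.span κ X)) (hW : ∀ i, Module.Finite κ (Wg κ P X i))
    (hL : Module.Finite lam (Submodule.span lam X)) (i₀ : ℕ)
    (hi₀ : ∀ i ≥ i₀, ∀ b ∈ Submodule.span κ X, b * P ^ i ∈ Wg κ P X i →
      b * P ^ i₀ ∈ Wg κ P X i₀) (i : ℕ) (hi : i₀ ≤ i) :
    Module.finrank κ (Wg κ P X (i + 1)) ≤
      Module.finrank κ (Wg κ P X i) + Module.finrank lam (Submodule.span lam X) := by
  have := hS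
  have := hW i
  have := hW (i + 1)
  have := hL
  let L : K →ₗ[κ] (K ⧸ Wg κ P X i) := (Wg κ P X i).mkQ ∘ₗ LinearMap.mulRight κ (P ^ i)
  let V : Submodule κ (K ⧸ Wg κ P X i) := (Submodule.span κ X).map L
  have hVf : Module.Finite κ V := Module.Finite.map _ _
  let f : Wg κ P X (i + 1) →ₗ[κ] (K ⧸ Wg κ P X i) := (Wg κ P X i).mkQ.domRestrict _
  have hr : LinearMap.range f ≤ V := by
    rintro _ ⟨⟨w, hw⟩, rfl⟩
    change (Wg κ P X i).mkQ w ∈ V
    unfold Wg at hw
    induction hw using Submodule.span_induction with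
    | mem x hx =>
      obtain ⟨x, hx, j, hj, rfl⟩ := hx
      rcases Nat.lt_or_ge j i with h | h
      · have h1 : (Wg κ P X i).mkQ (x * P ^ j) = 0 := by
          rw [Submodule.mkQ_apply, Submodule.Quotient.mk_eq_zero]
          exact mem_Wg κ P X (Submodule.subset_span hx) h
        rw [h1]
        exact Submodule.zero_mem _
      · have h1 : j = i := by omega
        rw [h1]
        exact Submodule.mem_map_of_mem (f := L) (Submodule.subset_span hx)
    | zero => rw [map_zero]; exact Submodule.zero_mem _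
    | add x y _ _ hx hy => rw [map_add]; exact Submodule.add_mem _ hx hy
    | smul c x _ hx => rw [map_smul]; exact Submodule.smul_mem _ c hx
  have h1 := LinearMap.finrank_range_add_finrank_ker f
  have h2 : Module.finrank κ (LinearMap.range f) ≤ Module.finrank κ V :=
    Submodule.finrank_mono hr
  have h3 : Module.finrank κ (LinearMap.ker f) ≤ Module.finrank κ (Wg κ P X i) := by
    have hk : ∀ x : LinearMap.ker f, ((x : Wg κ P X (i + 1)) : K) ∈ Wg κ P X i := by
      rintro ⟨⟨x, hx⟩, hx'⟩
      have h4 : (Wg κ P X i).mkQ x = 0 := hx'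
      rwa [Submodule.mkQ_apply, Submodule.Quotient.mk_eq_zero] at h4
    let G : LinearMap.ker f →ₗ[κ] Wg κ P X i :=
      LinearMap.codRestrict _ ((Wg κ P X (i + 1)).subtype ∘ₗ (LinearMap.ker f).subtype) hk
    refine LinearMap.finrank_le_finrank_of_injective (f := G) ?_
    intro x y hxy
    apply Subtype.ext
    apply Subtype.ext
    exact congrArg (fun z : Wg κ P X i => (z : K)) hxy
  have h4 : Module.finrank κ V ≤ Module.finrank lam (Submodule.span lam X) := by
    let B := Module.finBasis κ V
    have hB : ∀ l, ∃ b ∈ Submodule.span κ X, L b = B l := fun l => (B l).2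
    choose b hb hbL using hB
    have hind : LinearIndependent lam
        (fun l => (⟨b l, span_mono_field hle X (hb l)⟩ : Submodule.span lam X)) := by
      rw [Fintype.linearIndependent_iff]
      intro c hc
      by_contra hcon
      push Not at hcon
      have hc' : ∑ l, c l • b l = 0 := by
        have h5 := congrArg (Submodule.subtype _) hc
        rw [map_sum, map_zero] at h5
        exact h5
      obtain ⟨A, hA, hrel⟩ := common_denom hlam b c hcon hc'
      obtain ⟨a, ⟨l, hl⟩, ha⟩ := relation hi hi₀ b hb A hA hrel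
      have h5 : L (∑ l, a l • b l) = 0 := by
        change (Wg κ P X i).mkQ ((∑ l, a l • b l) * P ^ i) = 0
        rw [Submodule.mkQ_apply, Submodule.Quotient.mk_eq_zero]
        exact ha
      have h6 : ∑ l, a l • (B l) = 0 := by
        apply Subtype.ext
        rw [map_sum] at h5
        have h7 : (V.subtype (∑ l, a l • (B l))) = 0 := by
          rw [map_sum, ← h5]
          refine Finset.sum_congr rfl fun l _ => ?_
          rw [map_smul, map_smul, hbL l]
          rfl
        exact h7
      exact hl (Fintype.linearIndependent_iff.1 B.linearIndependent a h6 l)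
    have h5 := hind.fintype_card_le_finrank
    rwa [Fintype.card_fin] at h5
  omega

end general

theorem mem_adjoin_pair {k K : Type} [Field k] [Field K] [Algebra k K] (g P : K) :
    ∀ c ∈ IntermediateField.adjoin k {g, P},
      ∃ r s : Polynomial (IntermediateField.adjoin k {g}),
        c = Polynomial.aeval P r / Polynomial.aeval P s := by
  intro c hc
  have h1 : IntermediateField.adjoin k {g, P} ≤ (IntermediateField.adjoin
      (IntermediateField.adjoin k {g}) {P}).restrictScalars k := by
    rw [IntermediateField.adjoin_le_iff]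
    rintro x (rfl | hx)
    · exact IntermediateField.algebraMap_mem _
        (⟨x, IntermediateField.mem_adjoin_simple_self k x⟩ : IntermediateField.adjoin k {x})
    · rw [Set.mem_singleton_iff] at hx
      rw [hx]
      exact IntermediateField.mem_adjoin_simple_self _ P
  exact IntermediateField.mem_adjoin_simple_iff _ c |>.1 (h1 hc)

theorem pf_DIM (hFDM : T_FDM) : T_DIM := by
  intro k _ g P i₀ _ hi₀ a J
  set κ := IntermediateField.adjoin k {g} with hκ
  set lam := IntermediateField.adjoin k {g, P} with hlam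
  let X : Set (K3 k) := {h | ∃ q : Po 3 k, q.totalDegree ≤ a ∧ h = ι q}
  have hW : ∀ i, Wl κ P i a = Wg κ P X i := by
    intro i
    unfold Wl Wg
    congr 1
    ext h
    constructor
    · rintro ⟨q, j, hq, hj, rfl⟩
      exact ⟨ι q, ⟨q, hq, rfl⟩, j, hj, rfl⟩
    · rintro ⟨_, ⟨q, hq, rfl⟩, j, hj, rfl⟩
      exact ⟨q, j, hq, hj, rfl⟩
  have hle : κ ≤ lam := IntermediateField.adjoin.mono k _ _
    (Set.singleton_subset_iff.2 (Set.mem_insert _ _))
  induction J with
  | zero => simp
  | succ J ih =>
    have h1 := dim_step hle P X (mem_adjoin_pair g P) (hFDM k κ P 0 a).1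
      (fun i => (hW i) ▸ (hFDM k κ P i a).2) (hFDM k lam P 0 a).1 i₀
      (fun i hi b hb hbi => by
        rw [← hW] at hbi ⊢
        exact hi₀ i hi a b hb hbi) (i₀ + J) (Nat.le_add_right _ _)
    rw [← hW, ← hW] at h1
    have h2 : Module.finrank lam (Submodule.span lam X) = Module.finrank lam (Sp lam a) := rfl
    rw [h2] at h1
    have h3 : i₀ + (J + 1) = i₀ + J + 1 := by omega
    rw [h3, Nat.add_mul, Nat.one_mul]
    omega

end Pool.Agent.H68.DEN
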